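import Pool.Agent.helper82.CH.SpecA

/-! # Row ch:ZBD of MP_2e0e07_nt (bound for the coefficients of `-L'/L`) -/

set_option autoImplicit false

open NumberField Complex Pool.Agent.UN

namespace Pool.Agent.CH

variable {F : Type} [Field F] [NumberField F]

theorem ZBD_mem {n : ℕ} {a : Ideal (𝓞 F)} : a ∈ idl F n ↔ Ideal.absNorm a = n := by
  unfold idl
  rw [Set.Finite.mem_toFinset]
  rfl

/-- a prime ideal lies over a prime number -/
theorem ZBD_prime {P : Ideal (𝓞 F)} (hP : Prime P) : ∃ p f : ℕ, p.Prime ∧ f ≠ 0 ∧ Ideal.absNorm P = p ^ f ∧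
    P ∣ Ideal.span {(p : 𝓞 F)} := by
  have hPp : P.IsPrime := Ideal.isPrime_of_prime hP
  have hP0 : P ≠ ⊥ := hP.ne_zero
  have hN0 : Ideal.absNorm P ≠ 0 := fun h => hP0 (Ideal.absNorm_eq_zero_iff.1 h)
  have hN1 : Ideal.absNorm P ≠ 1 := fun h => hPp.ne_top (Ideal.absNorm_eq_one_iff.1 h)
  have key : ∀ m : ℕ, m ≠ 0 → (m : 𝓞 F) ∈ P → ∃ p : ℕ, p.Prime ∧ (p : 𝓞 F) ∈ P := by
    intro m
    induction m using Nat.strong_induction_on with
    | _ m ih =>
      intro hm0 hm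
      have hm1 : m ≠ 1 := by
        rintro rfl
        rw [Nat.cast_one] at hm
        exact hPp.ne_top ((Ideal.eq_top_iff_one P).2 hm)
      have hmf : m.minFac.Prime := Nat.minFac_prime hm1
      obtain ⟨k, hk⟩ := Nat.minFac_dvd m
      have hkm : (m : 𝓞 F) = (m.minFac : 𝓞 F) * (k : 𝓞 F) := by
        rw [← Nat.cast_mul, ← hk]
      rw [hkm] at hm
      rcases hPp.mem_or_mem hm with h | h
      · exact ⟨m.minFac, hmf, h⟩
      · have hk0 : k ≠ 0 := by
          rintro rfl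
          rw [mul_zero] at hk
          exact hm0 hk
        have hkl : k < m := by
          have h2 := hmf.two_le
          calc k < m.minFac * k := by nlinarith [Nat.pos_of_ne_zero hk0]
            _ = m := hk.symm
        exact ih k hkl hk0 h
  obtain ⟨p, hp, hpP⟩ := key _ hN0 (Ideal.absNorm_mem P)
  have hle : Ideal.span {(p : 𝓞 F)} ≤ P := (Ideal.span_singleton_le_iff_mem _).2 hpP
  have hdvd := Ideal.absNorm_dvd_absNorm_of_le hle
  rw [Ideal.absNorm_span_natCast] at hdvd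
  obtain ⟨f, -, hf⟩ := (Nat.dvd_prime_pow hp).1 hdvd
  refine ⟨p, f, hp, ?_, hf, Ideal.dvd_iff_le.2 hle⟩
  rintro rfl
  exact hN1 (by rw [hf, pow_zero])

theorem ZBD_rad {P : Ideal (𝓞 F)} (hP : Prime P) {k : ℕ} (hk : 0 < k) : (P ^ k).radical = P := by
  have hPp : P.IsPrime := Ideal.isPrime_of_prime hP
  have h1 : (P ^ k).radical ≤ P := (hPp.radical_le_iff).2 (Ideal.pow_le_self hk.ne')
  have h2 : P ≤ (P ^ k).radical := fun x hx => ⟨k, Ideal.pow_mem_pow hx k⟩
  exact le_antisymm h1 h2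

theorem ZBD_Lam_nonneg (a : Ideal (𝓞 F)) : 0 ≤ Lam a := by
  unfold Lam
  split_ifs
  · exact Real.log_natCast_nonneg _
  · exact le_rfl

open Classical in
theorem ZBD_sum (n : ℕ) : ∑ a ∈ idl F n, Lam a ≤ Module.finrank ℚ F * ArithmeticFunction.vonMangoldt n := by
  set T := (idl F n).filter fun a => IsPrimePow a with hT
  have h1 : ∑ a ∈ idl F n, Lam a = ∑ a ∈ T, Real.log (Ideal.absNorm a.radical) := by
    rw [hT, Finset.sum_filter]
    refine Finset.sum_congr rfl fun a _ => ?_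
    rfl
  rw [h1]
  have hdata : ∀ a ∈ T, ∃ (P : Ideal (𝓞 F)) (k : ℕ), Prime P ∧ 0 < k ∧ P ^ k = a ∧ a.radical = P ∧
      Ideal.absNorm P ^ k = n := by
    intro a ha
    obtain ⟨ha1, ha2⟩ := Finset.mem_filter.1 ha
    obtain ⟨P, k, hP, hk, hPk⟩ := ha2
    refine ⟨P, k, hP, hk, hPk, ?_, ?_⟩
    · rw [← hPk]
      exact ZBD_rad hP hk
    · rw [← map_pow, hPk]
      exact ZBD_mem.1 ha1
  rcases T.eq_empty_or_nonempty with hTe | ⟨a0, ha0⟩
  · rw [hTe, Finset.sum_empty]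
    exact mul_nonneg (Nat.cast_nonneg _) ArithmeticFunction.vonMangoldt_nonneg
  obtain ⟨P0, k0, hP0, hk0, hPk0, hr0, hn0⟩ := hdata a0 ha0
  obtain ⟨p, f0, hp, hf0, hN0, hd0⟩ := ZBD_prime hP0
  have hnp : n = p ^ (f0 * k0) := by rw [← hn0, hN0, pow_mul]
  have hfk : f0 * k0 ≠ 0 := Nat.mul_ne_zero hf0 hk0.ne'
  have hmin : n.minFac = p := by rw [hnp, hp.pow_minFac hfk]
  have hLam : ArithmeticFunction.vonMangoldt n = Real.log p := by
    rw [ArithmeticFunction.vonMangoldt_apply, if_pos, hmin]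
    rw [hnp]
    exact (hp.isPrimePow.pow hfk)
  rw [hLam]
  have hinj : Set.InjOn (fun a : Ideal (𝓞 F) => a.radical) (T : Set (Ideal (𝓞 F))) := by
    intro a ha b hb hab
    obtain ⟨P, k, hP, hk, hPk, hr, hn⟩ := hdata a ha
    obtain ⟨P', k', hP', hk', hPk', hr', hn'⟩ := hdata b hb
    have hPP : P = P' := by rw [← hr, ← hr']; exact hab
    subst hPP
    have h2 : 2 ≤ Ideal.absNorm P := by
      have h3 : Ideal.absNorm P ≠ 0 := fun h => hP.ne_zero (Ideal.absNorm_eq_zero_iff.1 h)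
      have h4 : Ideal.absNorm P ≠ 1 := fun h => (Ideal.isPrime_of_prime hP).ne_top (Ideal.absNorm_eq_one_iff.1 h)
      omega
    have h5 : k = k' := Nat.pow_right_injective h2 (hn.trans hn'.symm)
    rw [← hPk, ← hPk', h5]
  have h6 : ∑ a ∈ T, Real.log (Ideal.absNorm a.radical) =
      ∑ P ∈ T.image (fun a : Ideal (𝓞 F) => a.radical), Real.log (Ideal.absNorm P) := by
    rw [Finset.sum_image (fun a ha b hb => hinj ha hb)]
  rw [h6]
  set S := T.image (fun a : Ideal (𝓞 F) => a.radical) with hS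
  have hSp : ∀ P ∈ S, Prime P ∧ P ∣ Ideal.span {(p : 𝓞 F)} := by
    intro P hPS
    obtain ⟨a, ha, rfl⟩ := Finset.mem_image.1 hPS
    obtain ⟨P, k, hP, hk, hPk, hr, hn⟩ := hdata a ha
    rw [hr]
    refine ⟨hP, ?_⟩
    obtain ⟨p', f, hp', hf, hN, hd⟩ := ZBD_prime hP
    have h7 : n = p' ^ (f * k) := by rw [← hn, hN, pow_mul]
    have h8 : p' = p := by
      rw [← hmin, h7, hp'.pow_minFac (Nat.mul_ne_zero hf hk.ne')]
    rwa [h8] at hd
  have h9 : ∏ P ∈ S, P ∣ Ideal.span {(p : 𝓞 F)} :=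
    Finset.prod_primes_dvd _ (fun P hP => (hSp P hP).1) (fun P hP => (hSp P hP).2)
  have h10 : ∏ P ∈ S, Ideal.absNorm P ∣ p ^ Module.finrank ℚ F := by
    have h11 := map_dvd (Ideal.absNorm (S := 𝓞 F)) h9
    rw [map_prod, Ideal.absNorm_span_natCast, RingOfIntegers.rank] at h11
    exact h11
  have h12 : ∏ P ∈ S, Ideal.absNorm P ≤ p ^ Module.finrank ℚ F := Nat.le_of_dvd (pow_pos hp.pos _) h10
  have hne : ∀ P ∈ S, (Ideal.absNorm P : ℝ) ≠ 0 := by
    intro P hP h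
    rw [Nat.cast_eq_zero] at h
    exact (hSp P hP).1.ne_zero (Ideal.absNorm_eq_zero_iff.1 h)
  rw [← Real.log_prod hne]
  have h13 : (0 : ℝ) < ∏ P ∈ S, (Ideal.absNorm P : ℝ) :=
    Finset.prod_pos fun P hP => lt_of_le_of_ne (Nat.cast_nonneg _) (hne P hP).symm
  have h14 : ∏ P ∈ S, (Ideal.absNorm P : ℝ) ≤ (p : ℝ) ^ Module.finrank ℚ F := by exact_mod_cast h12
  calc Real.log (∏ P ∈ S, (Ideal.absNorm P : ℝ)) ≤ Real.log ((p : ℝ) ^ Module.finrank ℚ F) := Real.log_le_log h13 h14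
    _ = Module.finrank ℚ F * Real.log p := Real.log_pow _ _

theorem ZBD : ZBD_stmt := by
  classical
  intro F _ _ χ hχ
  refine ⟨fun n => ?_, fun n _ => ?_, fun p hp => ?_⟩
  · refine le_trans ?_ (ZBD_sum (F := F) n)
    unfold zz
    refine (norm_sum_le _ _).trans (Finset.sum_le_sum fun a _ => ?_)
    rw [norm_mul, Complex.norm_real, Real.norm_eq_abs, abs_of_nonneg (ZBD_Lam_nonneg a)]
    exact mul_le_of_le_one_left (ZBD_Lam_nonneg a) (hχ.bd a)
  · unfold cc
    refine (norm_sum_le _ _).trans ?_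
    have h1 : ((nd F n : ℕ) : ℝ) = ∑ a ∈ idl F n, (1 : ℝ) := by
      rw [Finset.sum_const, nsmul_eq_mul, mul_one]
      congr 1
      unfold nd
      have h2 : Nat.card {I : Ideal (𝓞 F) // Ideal.absNorm I = n} = Nat.card (idl F n) :=
        Nat.card_congr (Equiv.subtypeEquivRight fun a => ZBD_mem.symm)
      rw [h2, Nat.card_eq_fintype_card, Fintype.card_coe]
    rw [h1]
    exact Finset.sum_le_sum fun a _ => hχ.bd a
  · unfold zz cc
    rw [Finset.mul_sum]
    refine Finset.sum_congr rfl fun a ha => ?_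
    have h1 : Ideal.absNorm a = p := ZBD_mem.1 ha
    have h2 : a.IsPrime := Ideal.isPrime_of_irreducible_absNorm (by rw [h1]; exact hp)
    have h3 : a ≠ ⊥ := by
      rintro rfl
      rw [Ideal.absNorm_bot] at h1
      exact hp.ne_zero h1.symm
    have h4 : Prime a := Ideal.prime_of_isPrime h3 h2
    have h5 : Lam a = Real.log p := by
      unfold Lam
      rw [if_pos h4.isPrimePow, h2.radical, h1]
    rw [h5, mul_comm]

end Pool.Agent.CH
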